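import Pool.Agent.W751.CD.Stm

/-!
# Part NU of project CD: logarithmic area
(helper349)
-/

open MeasureTheory Pool.Agent.W751.CD

namespace W349.CD

theorem meas_g : Measurable (fun a : ℂ => ENNReal.ofReal ((‖a‖ ^ 2)⁻¹)) := by fun_prop

theorem meas_ann (r₁ r₂ : ℝ) : MeasurableSet {a : ℂ | r₁ ≤ ‖a‖ ∧ ‖a‖ ≤ r₂} := by
  apply IsClosed.measurableSet
  exact (isClosed_le continuous_const continuous_norm).inter
    (isClosed_le continuous_norm continuous_const)

theorem nu_ann (r₁ r₂ : ℝ) (h0 : 0 < r₁) (h12 : r₁ ≤ r₂) :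
    nu {a : ℂ | r₁ ≤ ‖a‖ ∧ ‖a‖ ≤ r₂} = ENNReal.ofReal (2 * Real.pi * Real.log (r₂ / r₁)) := by
  rw [nu, withDensity_apply _ (meas_ann r₁ r₂), ← lintegral_indicator (meas_ann r₁ r₂),
    ← Complex.lintegral_comp_polarCoord_symm]
  have e1 : ∀ p ∈ polarCoord.target, ENNReal.ofReal p.1 • Set.indicator {a : ℂ | r₁ ≤ ‖a‖ ∧ ‖a‖ ≤ r₂}
      (fun a : ℂ => ENNReal.ofReal ((‖a‖ ^ 2)⁻¹)) (Complex.polarCoord.symm p) =
      (Set.Icc r₁ r₂).indicator (fun r : ℝ => ENNReal.ofReal r⁻¹) p.1 *
        (fun _ : ℝ => (1 : ENNReal)) p.2 := by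
    rintro ⟨r, θ⟩ hp
    rw [polarCoord_target] at hp
    have hr : 0 < r := hp.1
    have hn : ‖Complex.polarCoord.symm (r, θ)‖ = r := by
      rw [Complex.norm_polarCoord_symm]
      exact abs_of_pos hr
    by_cases hc : r₁ ≤ r ∧ r ≤ r₂
    · rw [Set.indicator_of_mem (by rw [Set.mem_setOf_eq, hn]; exact hc),
        Set.indicator_of_mem (by simpa using hc), hn]
      rw [smul_eq_mul, ← ENNReal.ofReal_mul hr.le, mul_one]
      congr 1
      field_simp
    · rw [Set.indicator_of_notMem (by rw [Set.mem_setOf_eq, hn]; exact hc),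
        Set.indicator_of_notMem (by simpa using hc)]
      simp
  have m1 : Measurable ((Set.Icc r₁ r₂).indicator (fun r : ℝ => ENNReal.ofReal r⁻¹)) :=
    Measurable.indicator (by fun_prop) measurableSet_Icc
  rw [setLIntegral_congr_fun polarCoord.open_target.measurableSet e1, polarCoord_target,
    Measure.volume_eq_prod, ← Measure.prod_restrict,
    lintegral_prod_mul m1.aemeasurable measurable_const.aemeasurable]
  rw [lintegral_indicator measurableSet_Icc, Measure.restrict_restrict measurableSet_Icc]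
  have e2 : Set.Icc r₁ r₂ ∩ Set.Ioi 0 = Set.Icc r₁ r₂ := by
    rw [Set.inter_eq_left]
    exact fun x hx => lt_of_lt_of_le h0 hx.1
  rw [e2]
  have hint : IntegrableOn (fun r : ℝ => r⁻¹) (Set.Icc r₁ r₂) := by
    apply ContinuousOn.integrableOn_Icc
    exact continuousOn_inv₀.mono fun x hx => (lt_of_lt_of_le h0 hx.1).ne'
  rw [← ofReal_integral_eq_lintegral_ofReal hint]
  · rw [integral_Icc_eq_integral_Ioc, ← intervalIntegral.integral_of_le h12,
      integral_inv_of_pos h0 (h0.trans_le h12)]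
    rw [lintegral_const, Measure.restrict_apply_univ, Real.volume_Ioo, one_mul,
      ← ENNReal.ofReal_mul (Real.log_nonneg (by rw [le_div_iff₀ h0]; linarith))]
    congr 1
    ring
  · exact (ae_restrict_iff' measurableSet_Icc).2 (Filter.Eventually.of_forall fun x hx =>
      inv_nonneg.2 (h0.le.trans hx.1))

/-- change of variables for a homothety of the complex plane -/
theorem lint_mul (b : ℂ) (hb : b ≠ 0) (g : ℂ → ENNReal) (hg : Measurable g) :
    ∫⁻ a, g (a * b) = ENNReal.ofReal ((‖b‖ ^ 2)⁻¹) * ∫⁻ a, g a := by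
  let f : ℂ →ₗ[ℝ] ℂ := LinearMap.mulLeft ℝ b
  have hdet : LinearMap.det f = ‖b‖ ^ 2 := by
    have h1 : Algebra.norm ℝ b = LinearMap.det f := Algebra.norm_apply ℝ b
    rw [← h1, Algebra.norm_complex_apply, Complex.normSq_eq_norm_sq]
  have hb' : 0 < ‖b‖ ^ 2 := by positivity
  have hmap := Measure.map_linearMap_addHaar_eq_smul_addHaar (volume : Measure ℂ) (f := f)
    (by rw [hdet]; exact hb'.ne')
  have h2 : ∫⁻ a, g (f a) = ∫⁻ a, g a ∂(Measure.map f volume) := by
    rw [lintegral_map hg]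
    exact (LinearMap.continuous_of_finiteDimensional f).measurable
  have h3 : ∫⁻ a, g (a * b) = ∫⁻ a, g (f a) := by
    congr 1
    ext a
    rw [LinearMap.mulLeft_apply, mul_comm]
  rw [h3, h2, hmap, lintegral_smul_measure, hdet, abs_of_pos (inv_pos.2 hb'), smul_eq_mul]

theorem NU_holds : S_NU := by
  refine ⟨nu_ann, ?_, ?_⟩
  · intro b hb E hE
    have hm : Measurable (fun a : ℂ => a * b) := by fun_prop
    rw [nu, withDensity_apply _ (hm hE), withDensity_apply _ hE, ← lintegral_indicator (hm hE),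
      ← lintegral_indicator hE]
    have h := lint_mul b hb (E.indicator fun a : ℂ => ENNReal.ofReal ((‖a‖ ^ 2)⁻¹))
      (meas_g.indicator hE)
    have hb' : 0 < ‖b‖ ^ 2 := by positivity
    have h1 : ENNReal.ofReal (‖b‖ ^ 2) * ∫⁻ a, (E.indicator fun a : ℂ =>
        ENNReal.ofReal ((‖a‖ ^ 2)⁻¹)) (a * b) =
        ∫⁻ a, (E.indicator fun a : ℂ => ENNReal.ofReal ((‖a‖ ^ 2)⁻¹)) a := by
      rw [h, ← mul_assoc, ← ENNReal.ofReal_mul hb'.le, mul_inv_cancel₀ hb'.ne', ENNReal.ofReal_one,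
        one_mul]
    have m2 : Measurable (fun a : ℂ => (E.indicator fun a : ℂ =>
        ENNReal.ofReal ((‖a‖ ^ 2)⁻¹)) (a * b)) := (meas_g.indicator hE).comp hm
    rw [← h1, ← lintegral_const_mul _ m2]
    congr 1
    ext a
    by_cases ha : a * b ∈ E
    · rw [Set.indicator_of_mem (by exact ha), Set.indicator_of_mem ha, ← ENNReal.ofReal_mul hb'.le,
        norm_mul]
      congr 1
      by_cases h0 : ‖a‖ = 0
      · rw [h0]; simp
      · have : ‖b‖ ≠ 0 := by simpa using hb
        field_simp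
    · rw [Set.indicator_of_notMem (by exact ha), Set.indicator_of_notMem ha, mul_zero]
  · exact withDensity_absolutelyContinuous _ _ (measure_singleton 0)

end W349.CD
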