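import Pool.Agent.W751.CD.Stm

/-!
# Part C2 of project CD: the union bound with a threshold
(helper349)
-/

open MeasureTheory Pool.Agent.W751.CD

namespace W349.CD

instance : SFinite nu := by unfold nu; infer_instance

theorem C2_holds : S_C2 := by
  rintro ⟨hann, hinv, hz⟩ f hf hf0 s₁ R₁ hs hsR J hJ n hn hJn
  have hR : 0 < R₁ := hs.trans hsR
  set q : ℝ := R₁ / s₁ with hq
  have hq1 : 1 < q := (one_lt_div hs).2 hsR
  have hq0 : 0 < q := one_pos.trans hq1
  set L : ℝ := Real.log q with hL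
  have hL0 : 0 < L := Real.log_pos hq1
  have hqs : R₁ = q * s₁ := by rw [hq]; field_simp
  let Bad : ℂ → Set ℂ := fun b => {a : ℂ | s₁ ≤ ‖a * b‖ ∧ ‖a * b‖ ≤ R₁ ∧
        s₁ ≤ ‖a‖ * f (a * b) ∧ ‖a‖ * f (a * b) ≤ R₁}
  let U : ℂ → Set ℂ := fun b => {u : ℂ | s₁ ≤ ‖u‖ ∧ ‖u‖ ≤ R₁ ∧
        s₁ * ‖b‖ ≤ ‖u‖ * f u ∧ ‖u‖ * f u ≤ R₁ * ‖b‖}
  let D : Set (ℂ × ℂ) := {x | s₁ ≤ ‖x.2‖ ∧ ‖x.2‖ ≤ R₁ ∧ s₁ / q ≤ ‖x.1‖ * f x.2 ∧
    ‖x.1‖ * f x.2 ≤ R₁ * q}
  have hU : ∀ b, MeasurableSet (U b) := fun b => by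
    apply IsClosed.measurableSet
    refine (isClosed_le continuous_const continuous_norm).inter
      ((isClosed_le continuous_norm continuous_const).inter
      ((isClosed_le continuous_const (continuous_norm.mul hf)).inter
      (isClosed_le (continuous_norm.mul hf) continuous_const)))
  have hD : MeasurableSet D := by
    apply IsClosed.measurableSet
    have h2 : Continuous fun x : ℂ × ℂ => ‖x.2‖ := continuous_snd.norm
    have h1 : Continuous fun x : ℂ × ℂ => ‖x.1‖ * f x.2 :=
      continuous_fst.norm.mul (hf.comp continuous_snd)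
    exact (isClosed_le continuous_const h2).inter ((isClosed_le h2 continuous_const).inter
      ((isClosed_le continuous_const h1).inter (isClosed_le h1 continuous_const)))
  have hBU : ∀ b, b ≠ 0 → nu (Bad b) = nu (U b) := by
    intro b hb
    rw [← hinv b hb (U b) (hU b)]
    congr 1
    ext a
    have hb' : 0 < ‖b‖ := norm_pos_iff.2 hb
    simp only [Bad, U, Set.mem_setOf_eq, Set.mem_preimage]
    have e1 : s₁ * ‖b‖ ≤ ‖a * b‖ * f (a * b) ↔ s₁ ≤ ‖a‖ * f (a * b) := by
      rw [norm_mul, mul_right_comm]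
      exact mul_le_mul_iff_left₀ hb'
    have e2 : ‖a * b‖ * f (a * b) ≤ R₁ * ‖b‖ ↔ ‖a‖ * f (a * b) ≤ R₁ := by
      rw [norm_mul, mul_right_comm]
      exact mul_le_mul_iff_left₀ hb'
    rw [e1, e2]
  let g : ℂ → ENNReal := fun a => nu (Prod.mk a ⁻¹' D)
  have hg : Measurable g := measurable_measure_prodMk_left hD
  -- (i)
  have hi : ∀ b, b ≠ 0 → ∀ a ∈ Bad b, nu (U b) ≤ g a := by
    intro b hb a ha
    apply measure_mono
    intro u hu
    have hb' : 0 < ‖b‖ := norm_pos_iff.2 hb
    obtain ⟨h1, h2, -, -⟩ := ha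
    obtain ⟨k1, k2, k3, k4⟩ := hu
    refine ⟨k1, k2, ?_, ?_⟩
    · change s₁ / q ≤ ‖a‖ * f u
      rw [norm_mul] at h1 h2
      have hu0 : 0 < ‖u‖ := hs.trans_le k1
      have hfu := hf0 u
      -- f u / ‖b‖ ≥ s₁ / R₁
      have e1 : s₁ * ‖b‖ ≤ R₁ * f u := k3.trans (mul_le_mul_of_nonneg_right k2 hfu)
      have e2 : ‖b‖ ≤ q * f u := by
        have : s₁ * ‖b‖ ≤ s₁ * (q * f u) := by
          calc s₁ * ‖b‖ ≤ R₁ * f u := e1
            _ = _ := by rw [hqs]; ring
        exact le_of_mul_le_mul_left this hs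
      rw [div_le_iff₀ hq0]
      calc s₁ ≤ ‖a‖ * ‖b‖ := h1
        _ ≤ ‖a‖ * (q * f u) := mul_le_mul_of_nonneg_left e2 (norm_nonneg _)
        _ = _ := by ring
    · change ‖a‖ * f u ≤ R₁ * q
      rw [norm_mul] at h1 h2
      have hfu := hf0 u
      have e1 : s₁ * f u ≤ R₁ * ‖b‖ := (mul_le_mul_of_nonneg_right k1 hfu).trans k4
      have e2 : f u ≤ q * ‖b‖ := by
        have : s₁ * f u ≤ s₁ * (q * ‖b‖) := by
          calc s₁ * f u ≤ R₁ * ‖b‖ := e1
            _ = _ := by rw [hqs]; ring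
        exact le_of_mul_le_mul_left this hs
      calc ‖a‖ * f u ≤ ‖a‖ * (q * ‖b‖) := mul_le_mul_of_nonneg_left e2 (norm_nonneg _)
        _ = (‖a‖ * ‖b‖) * q := by ring
        _ ≤ _ := mul_le_mul_of_nonneg_right h2 hq0.le
  -- (ii)
  have hii : ∫⁻ a, g a ∂nu ≤ ENNReal.ofReal (12 * Real.pi ^ 2 * L ^ 2) := by
    have e1 : ∫⁻ a, g a ∂nu = (nu.prod nu) D := (Measure.prod_apply hD).symm
    rw [e1, Measure.prod_apply_symm hD]
    have e2 : ∀ u : ℂ, nu ((fun x => (x, u)) ⁻¹' D) ≤
        ({u : ℂ | s₁ ≤ ‖u‖ ∧ ‖u‖ ≤ R₁}).indicator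
          (fun _ => ENNReal.ofReal (2 * Real.pi * (3 * L))) u := by
      intro u
      by_cases hu : s₁ ≤ ‖u‖ ∧ ‖u‖ ≤ R₁
      · rw [Set.indicator_of_mem (by exact hu)]
        rcases (hf0 u).eq_or_lt with h0 | h0
        · have : ((fun x => (x, u)) ⁻¹' D) = ∅ := by
            ext a
            simp only [Set.mem_preimage, Set.mem_empty_iff_false, iff_false]
            rintro ⟨-, -, h3, -⟩
            rw [← h0, mul_zero] at h3
            exact absurd h3 (not_le.2 (div_pos hs hq0))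
          rw [this, measure_empty]
          exact zero_le
        · have hsub : ((fun x => (x, u)) ⁻¹' D) ⊆
              {a : ℂ | s₁ / q / f u ≤ ‖a‖ ∧ ‖a‖ ≤ R₁ * q / f u} := by
            rintro a ⟨-, -, h3, h4⟩
            exact ⟨(div_le_iff₀ h0).2 h3, (le_div_iff₀ h0).2 h4⟩
          refine (measure_mono hsub).trans ?_
          have h5 : s₁ / q / f u ≤ R₁ * q / f u := by
            apply div_le_div_of_nonneg_right _ h0.le
            rw [div_le_iff₀ hq0]
            have hqq : 1 ≤ q * q := by nlinarith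
            calc s₁ ≤ R₁ := hsR.le
              _ = R₁ * 1 := (mul_one _).symm
              _ ≤ R₁ * (q * q) := mul_le_mul_of_nonneg_left hqq hR.le
              _ = _ := by ring
          rw [hann _ _ (div_pos (div_pos hs hq0) h0) h5]
          apply le_of_eq
          congr 2
          have h6 : R₁ * q / f u / (s₁ / q / f u) = q ^ 3 := by
            rw [hqs]
            field_simp
          rw [h6, Real.log_pow, hL]
          push_cast
          ring
      · have : ((fun x => (x, u)) ⁻¹' D) = ∅ := by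
          ext a
          simp only [Set.mem_preimage, Set.mem_empty_iff_false, iff_false]
          rintro ⟨h1, h2, -, -⟩
          exact hu ⟨h1, h2⟩
        rw [this, measure_empty]
        exact zero_le
    have hma : MeasurableSet {u : ℂ | s₁ ≤ ‖u‖ ∧ ‖u‖ ≤ R₁} := by
      apply IsClosed.measurableSet
      exact (isClosed_le continuous_const continuous_norm).inter
        (isClosed_le continuous_norm continuous_const)
    refine (lintegral_mono e2).trans ?_
    rw [lintegral_indicator_const hma, hann s₁ R₁ hs hsR.le,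
      ← ENNReal.ofReal_mul (by positivity)]
    apply le_of_eq
    congr 1
    rw [← hq, ← hL]
    ring
  -- (iii)
  have hn0 : 0 < Real.sqrt n := Real.sqrt_pos.2 (by exact_mod_cast hn)
  set η : ℝ := 2 * Real.sqrt 3 * Real.pi * L / Real.sqrt n with hη
  have h3 : 0 < Real.sqrt 3 := by positivity
  have hη0 : 0 < η := by positivity
  have hmarkov : nu {a | ENNReal.ofReal η ≤ g a} ≤
      ENNReal.ofReal (2 * Real.sqrt 3 * Real.pi * L * Real.sqrt n) := by
    refine (meas_ge_le_lintegral_div hg.aemeasurable (by simpa using hη0) ENNReal.ofReal_ne_top).trans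
      ?_
    refine (ENNReal.div_le_div_right hii _).trans ?_
    rw [← ENNReal.ofReal_div_of_pos hη0]
    apply ENNReal.ofReal_le_ofReal
    apply le_of_eq
    rw [div_eq_iff hη0.ne', hη]
    have h33 : Real.sqrt 3 * Real.sqrt 3 = 3 := Real.mul_self_sqrt (by norm_num)
    field_simp
    nlinarith
  have hsub : (⋃ b ∈ J, Bad b) ⊆ {a | ENNReal.ofReal η ≤ g a} ∪
      ⋃ b ∈ J.filter (fun b => nu (U b) < ENNReal.ofReal η), Bad b := by
    intro a ha
    simp only [Set.mem_iUnion] at ha
    obtain ⟨b, hb, hab⟩ := ha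
    by_cases hc : nu (U b) < ENNReal.ofReal η
    · right
      simp only [Set.mem_iUnion]
      exact ⟨b, Finset.mem_filter.2 ⟨hb, hc⟩, hab⟩
    · left
      exact (not_lt.1 hc).trans (hi b (hJ b hb) a hab)
  have hfinal : nu (⋃ b ∈ J, Bad b) ≤ ENNReal.ofReal (2 * Real.sqrt 3 * Real.pi * L * Real.sqrt n) +
      ENNReal.ofReal (2 * Real.sqrt 3 * Real.pi * L * Real.sqrt n) := by
    refine (measure_mono hsub).trans ((measure_union_le _ _).trans (add_le_add hmarkov ?_))
    refine (measure_biUnion_finset_le _ _).trans ?_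
    have e1 : ∀ b ∈ J.filter (fun b => nu (U b) < ENNReal.ofReal η), nu (Bad b) ≤
        ENNReal.ofReal η := by
      intro b hb
      rw [Finset.mem_filter] at hb
      rw [hBU b (hJ b hb.1)]
      exact hb.2.le
    refine (Finset.sum_le_card_nsmul _ _ _ e1).trans ?_
    rw [nsmul_eq_mul]
    have hcard : ((J.filter (fun b => nu (U b) < ENNReal.ofReal η)).card : ENNReal) ≤
        ENNReal.ofReal n := by
      rw [ENNReal.ofReal_natCast]
      exact_mod_cast (Finset.card_filter_le _ _).trans hJn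
    refine (mul_le_mul_left hcard _).trans ?_
    rw [← ENNReal.ofReal_mul (by positivity)]
    apply ENNReal.ofReal_le_ofReal
    apply le_of_eq
    rw [hη]
    have hnn : Real.sqrt n * Real.sqrt n = n := Real.mul_self_sqrt (by positivity)
    field_simp
    nlinarith
  refine hfinal.trans ?_
  rw [← ENNReal.ofReal_add (by positivity) (by positivity)]
  apply ENNReal.ofReal_le_ofReal
  apply le_of_eq
  ring

end W349.CD
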